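import Pool.Agent.R185.CumSub

/-!
# Antagonistic play against an antagonist may be better for a player: `S = {4, 7, 18, 34}`

For the subtraction set `{4, 7, 18, 34}` and a heap of `85` pebbles the second player gets `42` if
both players are antagonistic, but only `41` if the first player is antagonistic and the second
player is friendly.
-/

namespace Pool.Agent.Results.MP_0d6f46_co.AvABeatsAvF

open Pool.Agent.R185.CumSub

/-- the values for `h ≤ 85` -/
def tab : Conv → Conv → List (ℕ × ℕ)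
  | Conv.F, Conv.F =>
    [(0, 0), (0, 0), (0, 0), (0, 0), (4, 0), (4, 0), (4, 0), (7, 0), (7, 0), (7, 0), (7, 0), (7,
    4), (7, 4), (7, 4), (7, 7), (8, 7), (8, 7), (8, 7), (18, 0), (18, 0), (18, 0), (18, 0), (18,
    4), (18, 4), (18, 4), (18, 7), (18, 7), (18, 7), (18, 7), (22, 7), (22, 7), (22, 7), (25,
    7), (25, 8), (34, 0), (34, 0), (34, 0), (34, 0), (34, 4), (34, 4), (34, 4), (34, 7), (34,
    7), (34, 7), (34, 7), (38, 7), (38, 7), (38, 7), (41, 7), (41, 8), (41, 8), (41, 8), (34,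
    18), (34, 18), (34, 18), (34, 18), (38, 18), (38, 18), (38, 18), (41, 18), (41, 18), (41,
    18), (41, 18), (41, 22), (41, 22), (41, 22), (41, 25), (42, 25), (34, 34), (34, 34), (36,
    34), (36, 34), (38, 34), (38, 34), (38, 36), (41, 34), (41, 34), (41, 36), (41, 36), (41,
    38), (41, 38), (43, 38), (41, 41), (42, 41), (43, 41), (43, 42)]
  | Conv.F, Conv.A =>
    [(0, 0), (0, 0), (0, 0), (0, 0), (4, 0), (4, 0), (4, 0), (7, 0), (7, 0), (7, 0), (7, 0), (7,
    4), (7, 4), (7, 4), (7, 7), (8, 7), (8, 7), (8, 7), (18, 0), (18, 0), (18, 0), (18, 0), (18,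
    4), (18, 4), (18, 4), (18, 7), (18, 7), (18, 7), (18, 7), (22, 7), (22, 7), (22, 7), (25,
    7), (25, 8), (34, 0), (34, 0), (34, 0), (34, 0), (34, 4), (34, 4), (34, 4), (34, 7), (34,
    7), (34, 7), (34, 7), (38, 7), (38, 7), (38, 7), (41, 7), (41, 8), (41, 8), (41, 8), (34,
    18), (34, 18), (34, 18), (34, 18), (38, 18), (38, 18), (38, 18), (41, 18), (41, 18), (41,
    18), (41, 18), (41, 22), (41, 22), (41, 22), (41, 25), (42, 25), (34, 34), (34, 34), (36,
    34), (36, 34), (38, 34), (38, 34), (38, 36), (41, 34), (41, 34), (41, 36), (41, 36), (41,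
    38), (41, 38), (41, 38), (41, 41), (42, 41), (43, 41), (43, 42)]
  | Conv.A, Conv.F =>
    [(0, 0), (0, 0), (0, 0), (0, 0), (4, 0), (4, 0), (4, 0), (7, 0), (7, 0), (7, 0), (7, 0), (7,
    4), (7, 4), (7, 4), (7, 7), (8, 7), (8, 7), (8, 7), (18, 0), (18, 0), (18, 0), (18, 0), (18,
    4), (18, 4), (18, 4), (18, 7), (18, 7), (18, 7), (18, 7), (22, 7), (22, 7), (22, 7), (25,
    7), (25, 8), (34, 0), (34, 0), (34, 0), (34, 0), (34, 4), (34, 4), (34, 4), (34, 7), (34,
    7), (34, 7), (34, 7), (38, 7), (38, 7), (38, 7), (41, 7), (41, 8), (41, 8), (41, 8), (34,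
    18), (34, 18), (34, 18), (34, 18), (38, 18), (38, 18), (38, 18), (41, 18), (41, 18), (41,
    18), (41, 18), (41, 22), (41, 22), (41, 22), (41, 25), (42, 25), (34, 34), (34, 34), (36,
    34), (36, 34), (38, 34), (38, 34), (38, 34), (41, 34), (41, 34), (41, 34), (41, 34), (41,
    38), (41, 38), (43, 38), (41, 41), (42, 41), (43, 41), (43, 41)]
  | Conv.A, Conv.A =>
    [(0, 0), (0, 0), (0, 0), (0, 0), (4, 0), (4, 0), (4, 0), (7, 0), (7, 0), (7, 0), (7, 0), (7,
    4), (7, 4), (7, 4), (7, 7), (8, 7), (8, 7), (8, 7), (18, 0), (18, 0), (18, 0), (18, 0), (18,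
    4), (18, 4), (18, 4), (18, 7), (18, 7), (18, 7), (18, 7), (22, 7), (22, 7), (22, 7), (25,
    7), (25, 8), (34, 0), (34, 0), (34, 0), (34, 0), (34, 4), (34, 4), (34, 4), (34, 7), (34,
    7), (34, 7), (34, 7), (38, 7), (38, 7), (38, 7), (41, 7), (41, 8), (41, 8), (41, 8), (34,
    18), (34, 18), (34, 18), (34, 18), (38, 18), (38, 18), (38, 18), (41, 18), (41, 18), (41,
    18), (41, 18), (41, 22), (41, 22), (41, 22), (41, 25), (42, 25), (34, 34), (34, 34), (36,
    34), (36, 34), (38, 34), (38, 34), (38, 34), (41, 34), (41, 34), (41, 34), (41, 34), (41,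
    38), (41, 38), (41, 38), (41, 41), (42, 41), (43, 41), (43, 42)]

/-- the values for `h ≤ 85` as a function -/
def t (c d : Conv) (h : ℕ) : ℕ × ℕ := (tab c d).getD h (0, 0)

set_option maxRecDepth 100000 in
set_option synthInstance.maxSize 4096 in
theorem check : ∀ h < 86, (moves {4, 7, 18, 34} h = ∅ → ∀ c d, t c d h = (0, 0)) ∧
    (moves {4, 7, 18, 34} h ≠ ∅ → ∀ c d,
      (∃ s ∈ moves {4, 7, 18, 34} h, (t c d h).1 = s + (t d c (h - s)).2 ∧
        (t c d h).2 = (t d c (h - s)).1) ∧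
      (∀ s ∈ moves {4, 7, 18, 34} h, s + (t d c (h - s)).2 ≤ (t c d h).1) ∧
      (∀ s ∈ moves {4, 7, 18, 34} h, s + (t d c (h - s)).2 = (t c d h).1 →
        (c = Conv.F → (t d c (h - s)).1 ≤ (t c d h).2) ∧
        (c = Conv.A → (t c d h).2 ≤ (t d c (h - s)).1))) := by
  decide +kernel

theorem eq_t : ∀ h ≤ 85, ∀ c d, outcome {4, 7, 18, 34} c d h = t c d h :=
  outcome_unique 85 t (fun h hh => (check h (by omega)).1)
    (fun h hh => (check h (by omega)).2)

/-- The inequality `o^i_AvA(h) ≤ o^i_AvF(h)` (claimed for all finite nonempty `S`, all `h` and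
`i = 1, 2`) fails for `S = {4, 7, 18, 34}`, `h = 85` and `i = 2`: the outcomes are `(43, 42)` in the
setting AvA and `(43, 41)` in the setting AvF.  In particular it is not true that for every finite
nonempty `S` and all `h`, `i` both `o^i_AvA(h) ≤ o^i_AvF(h)` and `o^i_AvA(h) ≤ o^i_FvA(h)`. -/
theorem result :
    outcome {4, 7, 18, 34} Conv.A Conv.A 85 = (43, 42) ∧
    outcome {4, 7, 18, 34} Conv.A Conv.F 85 = (43, 41) ∧
    ¬ ∀ S : Finset ℕ, S.Nonempty → (∀ s ∈ S, 1 ≤ s) → ∀ h : ℕ,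
      ((outcome S Conv.A Conv.A h).1 ≤ (outcome S Conv.A Conv.F h).1 ∧
        (outcome S Conv.A Conv.A h).2 ≤ (outcome S Conv.A Conv.F h).2) ∧
      ((outcome S Conv.A Conv.A h).1 ≤ (outcome S Conv.F Conv.A h).1 ∧
        (outcome S Conv.A Conv.A h).2 ≤ (outcome S Conv.F Conv.A h).2) := by
  have h1 : outcome {4, 7, 18, 34} Conv.A Conv.A 85 = (43, 42) := by
    rw [eq_t 85 le_rfl]; decide +kernel
  have h2 : outcome {4, 7, 18, 34} Conv.A Conv.F 85 = (43, 41) := by
    rw [eq_t 85 le_rfl]; decide +kernel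
  refine ⟨h1, h2, fun H => ?_⟩
  have := (H {4, 7, 18, 34} (by simp) (by simp) 85).1.2
  rw [h1, h2] at this
  norm_num at this

end Pool.Agent.Results.MP_0d6f46_co.AvABeatsAvF
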